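import Mathlib

set_option autoImplicit false

namespace Pool.Agent.H.MP_debf2a_co

open Matrix Quaternion

def ψ (x : ℍ[ℝ]) : Matrix (Fin 2) (Fin 2) ℂ :=
  !![Complex.mk x.re x.imI, Complex.mk x.imJ x.imK;
     Complex.mk (-x.imJ) x.imK, Complex.mk x.re (-x.imI)]

lemma ψ_mul (x y : ℍ[ℝ]) : ψ (x * y) = ψ x * ψ y := by
  ext i j
  fin_cases i <;> fin_cases j <;> apply Complex.ext <;>
    simp [ψ, Matrix.mul_apply, Fin.sum_univ_two] <;> ring

lemma ψ_add (x y : ℍ[ℝ]) : ψ (x + y) = ψ x + ψ y := by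
  ext i j
  fin_cases i <;> fin_cases j <;> apply Complex.ext <;> simp [ψ] <;> ring

lemma ψ_one : ψ 1 = 1 := by
  ext i j
  fin_cases i <;> fin_cases j <;> apply Complex.ext <;> simp [ψ]

lemma ψ_zero : ψ 0 = 0 := by
  ext i j
  fin_cases i <;> fin_cases j <;> apply Complex.ext <;> simp [ψ]

def Ψ : ℍ[ℝ] →+* Matrix (Fin 2) (Fin 2) ℂ := ⟨⟨⟨ψ, ψ_one⟩, ψ_mul⟩, ψ_zero, ψ_add⟩

lemma det_ψ (x : ℍ[ℝ]) : (ψ x).det = (normSq x : ℝ) := by
  apply Complex.ext <;> simp [ψ, Matrix.det_fin_two, normSq_def', sq] <;> ring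

variable {ι κ : Type} [Fintype ι] [DecidableEq ι] [Fintype κ] [DecidableEq κ]

def χ (M : Matrix ι ι ℍ[ℝ]) : Matrix (ι × Fin 2) (ι × Fin 2) ℂ :=
  Matrix.of fun p q => ψ (M p.1 q.1) p.2 q.2

noncomputable def Sd (M : Matrix ι ι ℍ[ℝ]) : ℂ := (χ M).det

lemma χ_mul (M N : Matrix ι ι ℍ[ℝ]) : χ (M * N) = χ M * χ N := by
  ext p q
  have : ψ (∑ l, M p.1 l * N l q.1) = ∑ l, ψ (M p.1 l) * ψ (N l q.1) := by
    rw [show ψ = Ψ from rfl, map_sum]; simp only [map_mul]
  simp only [χ, of_apply, Matrix.mul_apply, this, Matrix.sum_apply, Fintype.sum_prod_type]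

lemma χ_one : χ (1 : Matrix ι ι ℍ[ℝ]) = 1 := by
  ext ⟨a, u⟩ ⟨b, v⟩
  by_cases h : a = b
  · subst h; simp [χ, ψ_one, Matrix.one_apply]
  · simp [χ, ψ_zero, h, Matrix.one_apply]

lemma Sd_ne {M : Matrix ι ι ℍ[ℝ]} (h : IsUnit M) : Sd M ≠ 0 := by
  obtain ⟨u, rfl⟩ := h
  have : (χ u.1).det * (χ u.inv).det = 1 := by rw [← det_mul, ← χ_mul, u.val_inv, χ_one, det_one]
  exact left_ne_zero_of_mul_eq_one this

lemma Sd_re (M : Matrix κ κ ℍ[ℝ]) (e f : ι ≃ κ) : Sd (M.submatrix e f) = Sd M := by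
  let σ : Equiv.Perm κ := f.symm.trans e
  have : χ (M.submatrix e f) = ((χ M).submatrix (Equiv.prodCongrLeft fun _ : Fin 2 => σ) id).submatrix
      (f.prodCongr (Equiv.refl _)) (f.prodCongr (Equiv.refl _)) := by
    ext p q; simp [χ, σ]
  unfold Sd
  rw [this, det_submatrix_equiv_self, det_permute, Equiv.Perm.sign_prodCongrLeft]
  simp [Int.units_mul_self]

def eo (ι : Type) : Fin 2 ⊕ ι × Fin 2 ≃ Option ι × Fin 2 where
  toFun := fun x => match x with
    | Sum.inl u => (none, u)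
    | Sum.inr (x, u) => (some x, u)
  invFun := fun x => match x with
    | (none, u) => Sum.inl u
    | (some x, u) => Sum.inr (x, u)
  left_inv := by rintro (u | ⟨x, u⟩) <;> rfl
  right_inv := by rintro ⟨_ | x, u⟩ <;> rfl

lemma schur (M : Matrix (Option ι) (Option ι) ℍ[ℝ]) (h : normSq (M none none) = 1) :
    Sd M = Sd (Matrix.of fun x y : ι => M (some x) (some y) -
      M (some x) none * star (M none none) * M none (some y)) := by
  have h1 : M none none * star (M none none) = 1 := by rw [self_mul_star, h]; simp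
  have h2 : star (M none none) * M none none = 1 := by rw [star_mul_self, h]; simp
  letI : Invertible (ψ (M none none)) :=
    ⟨ψ (star (M none none)), by rw [← ψ_mul, h2, ψ_one], by rw [← ψ_mul, h1, ψ_one]⟩
  have e : (χ M).submatrix (eo ι) (eo ι) = fromBlocks (ψ (M none none))
      (Matrix.of fun u q => ψ (M none (some q.1)) u q.2)
      (Matrix.of fun p u => ψ (M (some p.1) none) p.2 u)
      (Matrix.of fun p q => ψ (M (some p.1) (some q.1)) p.2 q.2) := by
    ext (u | ⟨x, u⟩) (v | ⟨y, v⟩) <;> rfl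
  unfold Sd
  rw [← det_submatrix_equiv_self (eo ι), e, det_fromBlocks₁₁, det_ψ, h]
  simp only [Complex.ofReal_one, one_mul]
  congr 1
  ext p q
  have : ψ (M (some p.1) (some q.1) - M (some p.1) none * star (M none none) * M none (some q.1)) =
      ψ (M (some p.1) (some q.1)) -
        ψ (M (some p.1) none) * ψ (star (M none none)) * ψ (M none (some q.1)) := by
    rw [show ψ = Ψ from rfl, map_sub, map_mul, map_mul]
  simp only [χ, of_apply, this, Matrix.sub_apply, Matrix.mul_apply]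
  rfl

lemma schur' {k : ℕ} (M : Matrix (Fin (k + 1)) (Fin (k + 1)) ℍ[ℝ]) (a b : Fin (k + 1))
    (h : normSq (M a b) = 1) : Sd M = Sd (Matrix.of fun x y : Fin k =>
      M (a.succAbove x) (b.succAbove y) - M (a.succAbove x) b * star (M a b) * M a (b.succAbove y)) := by
  rw [← Sd_re M (finSuccEquiv' a).symm (finSuccEquiv' b).symm, schur _ (by simpa using h)]
  simp

lemma Sd_row0 (M : Matrix ι ι ℍ[ℝ]) (a : ι) (h : ∀ b, M a b = 0) : Sd M = 0 :=
  det_eq_zero_of_row_eq_zero (a, 0) fun q => by simp [χ, h, ψ_zero]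

lemma Sd_roweq (M : Matrix ι ι ℍ[ℝ]) {a a' : ι} (h0 : a ≠ a') (h : M a = M a') : Sd M = 0 :=
  det_zero_of_row_eq (i := (a, 0)) (j := (a', 0)) (fun e => h0 (congrArg Prod.fst e))
    (by funext q; simp [χ, h])

structure Z where
  a : ℤ
  b : ℤ
  deriving DecidableEq

def Z.mul (x y : Z) : Z := ⟨x.a * y.a + x.b * y.b, x.a * y.b + x.b * y.a + x.b * y.b⟩
def Z.add (x y : Z) : Z := ⟨x.a + y.a, x.b + y.b⟩
def Z.sub (x y : Z) : Z := ⟨x.a - y.a, x.b - y.b⟩
def Z.neg (x : Z) : Z := ⟨-x.a, -x.b⟩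
def Z.sc (s : ℤ) (x : Z) : Z := ⟨s * x.a, s * x.b⟩

noncomputable def φ : ℝ := (1 + Real.sqrt 5) / 2

lemma φ_sq : φ * φ = φ + 1 := by
  have := Real.mul_self_sqrt (show (0 : ℝ) ≤ 5 by norm_num)
  unfold φ; nlinarith

noncomputable def Z.ev (x : Z) : ℝ := x.a + x.b * φ

lemma Z.ev_mul (x y : Z) : (x.mul y).ev = x.ev * y.ev := by
  simp only [Z.ev, Z.mul]; push_cast; linear_combination (-(x.b : ℝ) * y.b) * φ_sq
lemma Z.ev_add (x y : Z) : (x.add y).ev = x.ev + y.ev := by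
  simp only [Z.ev, Z.add]; push_cast; ring
lemma Z.ev_sub (x y : Z) : (x.sub y).ev = x.ev - y.ev := by
  simp only [Z.ev, Z.sub]; push_cast; ring
lemma Z.ev_neg (x : Z) : x.neg.ev = -x.ev := by
  simp only [Z.ev, Z.neg]; push_cast; ring
lemma Z.ev_sc (s : ℤ) (x : Z) : (x.sc s).ev = s * x.ev := by
  simp only [Z.ev, Z.sc]; push_cast; ring

structure Q where
  r : Z
  i : Z
  j : Z
  k : Z
  deriving DecidableEq

def Q.o : Q := ⟨⟨0, 0⟩, ⟨0, 0⟩, ⟨0, 0⟩, ⟨0, 0⟩⟩
def Q.int (n : ℤ) : Q := ⟨⟨n, 0⟩, ⟨0, 0⟩, ⟨0, 0⟩, ⟨0, 0⟩⟩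
def Q.mul (x y : Q) : Q :=
  ⟨(((x.r.mul y.r).sub (x.i.mul y.i)).sub (x.j.mul y.j)).sub (x.k.mul y.k),
   (((x.r.mul y.i).add (x.i.mul y.r)).add (x.j.mul y.k)).sub (x.k.mul y.j),
   (((x.r.mul y.j).sub (x.i.mul y.k)).add (x.j.mul y.r)).add (x.k.mul y.i),
   (((x.r.mul y.k).add (x.i.mul y.j)).sub (x.j.mul y.i)).add (x.k.mul y.r)⟩
def Q.add (x y : Q) : Q := ⟨x.r.add y.r, x.i.add y.i, x.j.add y.j, x.k.add y.k⟩
def Q.sub (x y : Q) : Q := ⟨x.r.sub y.r, x.i.sub y.i, x.j.sub y.j, x.k.sub y.k⟩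
def Q.cj (x : Q) : Q := ⟨x.r, x.i.neg, x.j.neg, x.k.neg⟩
def Q.sc (s : ℤ) (x : Q) : Q := ⟨x.r.sc s, x.i.sc s, x.j.sc s, x.k.sc s⟩
def Q.nm (x : Q) : Z := (((x.r.mul x.r).add (x.i.mul x.i)).add (x.j.mul x.j)).add (x.k.mul x.k)

noncomputable def Q.ev (x : Q) : ℍ[ℝ] := ⟨x.r.ev, x.i.ev, x.j.ev, x.k.ev⟩

lemma Q.ev_mul (x y : Q) : (x.mul y).ev = x.ev * y.ev := by
  ext <;> simp [Q.ev, Q.mul, Z.ev_mul, Z.ev_add, Z.ev_sub]
lemma Q.ev_add (x y : Q) : (x.add y).ev = x.ev + y.ev := by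
  ext <;> simp [Q.ev, Q.add, Z.ev_add]
lemma Q.ev_sub (x y : Q) : (x.sub y).ev = x.ev - y.ev := by
  ext <;> simp [Q.ev, Q.sub, Z.ev_sub]
lemma Q.ev_cj (x : Q) : x.cj.ev = star x.ev := by
  ext <;> simp [Q.ev, Q.cj, Z.ev_neg]
lemma Q.ev_sc (s : ℤ) (x : Q) : (x.sc s).ev = (s : ℝ) • x.ev := by
  ext <;> simp [Q.ev, Q.sc, Z.ev_sc]
lemma Q.ev_nm (x : Q) : x.nm.ev = normSq x.ev := by
  simp [Q.ev, Q.nm, Z.ev_mul, Z.ev_add, normSq_def', sq]
lemma Q.ev_o : Q.o.ev = 0 := by ext <;> simp [Q.ev, Q.o, Z.ev]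
lemma Q.ev_int (n : ℤ) : (Q.int n).ev = (n : ℝ) • (1 : ℍ[ℝ]) := by ext <;> simp [Q.ev, Q.int, Z.ev]

def ent (s : ℤ) (f x y : Q) : Q := if y = Q.o then x.sc (s * s) else (x.sc (s * s)).sub (f.mul y)

def rw1 (s : ℤ) (m : Q) (j : ℕ) (row r : List Q) : List Q :=
  if r.getD j Q.o = Q.o then r.map (Q.sc (s * s))
  else List.zipWith (ent s ((r.getD j Q.o).mul m.cj)) r row

def chk : ℕ → ℤ → List (List Q) → Bool
  | 0, _, L => L.isEmpty
  | _ + 1, _, [] => true
  | n + 1, s, row :: rest => rest.all (fun r => r.length == row.length) && chk n s rest &&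
      (List.range row.length).all fun j => decide (row.getD j Q.o = Q.o) ||
        (decide ((row.getD j Q.o).nm = ⟨s * s, 0⟩) &&
          chk n (s * s * s) (rest.map (rw1 s (row.getD j Q.o) j row)))

noncomputable def val (s : ℤ) (L : List (List Q)) (a b : ℕ) : ℍ[ℝ] :=
  (s : ℝ)⁻¹ • ((L.getD a []).getD b Q.o).ev

lemma rw1_ev (s : ℤ) (m : Q) (j : ℕ) (row r : List Q) (h : r.length = row.length) (b : ℕ) :
    ((rw1 s m j row r).getD b Q.o).ev = ((s : ℝ) * s) • (r.getD b Q.o).ev -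
      (r.getD j Q.o).ev * star m.ev * (row.getD b Q.o).ev := by
  rcases lt_or_ge b r.length with hb | hb
  · unfold rw1
    split_ifs with h0
    · rw [h0, Q.ev_o, List.getD_eq_getElem _ _ (by simpa using hb), List.getD_eq_getElem _ _ hb]
      simp [Q.ev_sc]
    · rw [List.getD_eq_getElem _ _ (by simp; omega), List.getD_eq_getElem _ _ hb,
        List.getD_eq_getElem row _ (by omega), List.getElem_zipWith]
      unfold ent
      split_ifs with h1
      · rw [h1, Q.ev_o]; simp [Q.ev_sc]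
      · simp [Q.ev_sub, Q.ev_sc, Q.ev_mul, Q.ev_cj]
  · rw [List.getD_eq_default r _ hb, List.getD_eq_default row _ (by omega),
      List.getD_eq_default _ _ (by unfold rw1; split_ifs <;> simp <;> omega), Q.ev_o]
    simp

theorem sound (n : ℕ) : ∀ (s : ℤ) (L : List (List Q)), s ≠ 0 → chk n s L = true →
    ∀ (k : ℕ) (g h : Fin k → ℕ), Sd (Matrix.of fun a b => val s L (g a) (h b)) = 0 ∨
      Sd (Matrix.of fun a b => val s L (g a) (h b)) = 1 := by
  have emp : ∀ (s : ℤ) (k : ℕ) (g h : Fin k → ℕ),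
      Sd (Matrix.of fun a b => val s [] (g a) (h b)) = 0 ∨
      Sd (Matrix.of fun a b => val s [] (g a) (h b)) = 1 := by
    intro s k g h
    cases k with
    | zero => right; exact det_isEmpty
    | succ k => left; exact Sd_row0 _ 0 fun b => by simp [val, Q.ev_o]
  induction n with
  | zero =>
    intro s L _ hc
    rw [chk, List.isEmpty_iff] at hc
    subst hc; exact emp s
  | succ n ih =>
    intro s L hs hc k g h
    cases L with
    | nil => exact emp s k g h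
    | cons row rest =>
    simp only [chk, Bool.and_eq_true, List.all_eq_true, beq_iff_eq, Bool.or_eq_true,
      decide_eq_true_eq, List.mem_range] at hc
    obtain ⟨⟨c1, c2⟩, c3⟩ := hc
    by_cases h0 : ∀ a, g a ≠ 0
    · have := ih s rest hs c2 k (fun a => g a - 1) h
      have e : (Matrix.of fun a b => val s (row :: rest) (g a) (h b)) =
          Matrix.of fun a b => val s rest (g a - 1) (h b) := by
        ext1 a b
        obtain ⟨t, ht⟩ := Nat.exists_eq_succ_of_ne_zero (h0 a)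
        simp [val, ht]
      rw [e]; exact this
    push Not at h0
    obtain ⟨a, ha⟩ := h0
    by_cases h1 : ∃ a', a' ≠ a ∧ g a' = 0
    · obtain ⟨a', p1, p2⟩ := h1
      exact Or.inl (Sd_roweq _ p1 (by funext b; simp [ha, p2]))
    push Not at h1
    by_cases h2 : ∀ b, row.getD (h b) Q.o = Q.o
    · refine Or.inl (Sd_row0 _ a fun b => ?_)
      simp only [val, of_apply, ha, List.getD_cons_zero, h2 b, Q.ev_o, smul_zero]
    push Not at h2
    obtain ⟨b, hb⟩ := h2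
    have hl : h b < row.length := by
      by_contra hh
      exact hb (List.getD_eq_default _ _ (not_lt.1 hh))
    obtain ⟨d1, d2⟩ := (c3 _ hl).resolve_left hb
    have hs' : (s : ℝ) ≠ 0 := by exact_mod_cast hs
    obtain ⟨k, rfl⟩ : ∃ k', k = k' + 1 := ⟨k - 1, by have := a.pos; omega⟩
    have e0 : ∀ y, val s (row :: rest) (g a) y = (s : ℝ)⁻¹ • (row.getD y Q.o).ev := fun y => by
      simp only [val, ha, List.getD_cons_zero]
    have hn : normSq ((Matrix.of fun a b => val s (row :: rest) (g a) (h b)) a b) = 1 := by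
      rw [of_apply, e0, normSq_smul, ← Q.ev_nm, d1]
      simp only [Z.ev]; push_cast; field_simp; ring
    rw [schur' _ a b hn]
    have := ih _ _ (mul_ne_zero (mul_ne_zero hs hs) hs) d2 k (fun x => g (a.succAbove x) - 1)
      (fun y => h (b.succAbove y))
    convert this using 3 <;>
    · ext1 x y
      obtain ⟨t, ht⟩ := Nat.exists_eq_succ_of_ne_zero (h1 _ (a.succAbove_ne x))
      simp only [of_apply, e0]
      simp only [val, ht, Nat.succ_sub_one, List.getD_cons_succ]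
      rcases lt_or_ge t rest.length with h3 | h3
      · rw [List.getD_eq_getElem (rest.map _) _ (by simpa using h3), List.getElem_map,
          List.getD_eq_getElem rest _ h3, rw1_ev _ _ _ _ _ (c1 _ (List.getElem_mem h3))]
        simp only [Quaternion.star_smul, smul_mul_assoc, mul_smul_comm, smul_smul, smul_sub]
        push_cast
        congr 2 <;> field_simp
      · rw [List.getD_eq_default (rest.map _) _ (by simpa using h3), List.getD_eq_default rest _ h3]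
        simp [Q.ev_o]

end Pool.Agent.H.MP_debf2a_co
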