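import Pool.Agent.H.MP_debf2a_co.A

set_option autoImplicit false

namespace Pool.Agent.H.MP_debf2a_co

open Matrix Quaternion Sum

def o : Q := Q.o
def e : Q := Q.int 2
def s : Q := ⟨⟨1, 0⟩, ⟨-1, 0⟩, ⟨1, 0⟩, ⟨-1, 0⟩⟩
def p : Q := ⟨⟨1, 0⟩, ⟨1, -1⟩, ⟨0, 0⟩, ⟨0, -1⟩⟩
def q : Q := ⟨⟨1, 0⟩, ⟨0, -1⟩, ⟨-1, 1⟩, ⟨0, 0⟩⟩
def LL : List (List Q) := [[o, o, e, e, e, e, e], [e, o, e, p, p, e, o], [s, o, e, q, q, e, o],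
  [o, e, e, p, o, p, e], [o, s, e, q, o, q, e]]

theorem ok : chk 5 2 LL = true := by decide +kernel

noncomputable def DD : Matrix (Fin 5) (Fin 7) ℍ[ℝ] := Matrix.of fun i j => val 2 LL i j

noncomputable def AA : Matrix (Fin 5) (Fin 5 ⊕ Fin 7) ℍ[ℝ] := Matrix.fromCols 1 DD

def Aq (i : Fin 5) : Fin 5 ⊕ Fin 7 → Q
  | inl j => if i = j then e else o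
  | inr j => (LL.getD i []).getD j Q.o

lemma AA_eq (i : Fin 5) (c : Fin 5 ⊕ Fin 7) : AA i c = (2 : ℝ)⁻¹ • (Aq i c).ev := by
  rcases c with j | j
  · simp only [AA, fromCols_apply_inl, Aq, Matrix.one_apply]
    split_ifs
    · simp [e, Q.ev_int, smul_smul]
    · simp [o, Q.ev_o]
  · simp [AA, DD, Aq, val]

def dot (u v : Fin 5 → Q) : Q :=
  (((((u 0).mul (v 0)).add ((u 1).mul (v 1))).add ((u 2).mul (v 2))).add ((u 3).mul (v 3))).add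
    ((u 4).mul (v 4))

lemma ev_dot (u v : Fin 5 → Q) : (dot u v).ev = ∑ l, (u l).ev * (v l).ev := by
  simp [dot, Q.ev_add, Q.ev_mul, Fin.sum_univ_five]

lemma one_of {u v : Fin 5 → Q} {i j : Fin 5} (h : dot u v = if i = j then Q.int 4 else o) :
    ∑ l, (2 : ℝ)⁻¹ • (u l).ev * (2 : ℝ)⁻¹ • (v l).ev = (1 : Matrix (Fin 5) (Fin 5) ℍ[ℝ]) i j := by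
  simp only [smul_mul_assoc, mul_smul_comm, smul_smul]
  rw [← Finset.smul_sum, ← ev_dot, h, Matrix.one_apply]
  split_ifs
  · rw [Q.ev_int, smul_smul]; norm_num
  · simp [o, Q.ev_o]

lemma unit (f : Fin 5 → Fin 5 ⊕ Fin 7) (N : Fin 5 → Fin 5 → Q)
    (h : ∀ i j, dot (N i) (fun l => Aq l (f j)) = (if i = j then Q.int 4 else o) ∧
      dot (fun l => Aq i (f l)) (fun l => N l j) = if i = j then Q.int 4 else o) :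
    IsUnit (AA.submatrix id f) := by
  refine ⟨⟨_, Matrix.of fun i j => (2 : ℝ)⁻¹ • (N i j).ev, ?_, ?_⟩, rfl⟩ <;> ext1 i j <;>
    simp only [Matrix.mul_apply, submatrix_apply, id, of_apply, AA_eq]
  · exact one_of (h i j).2
  · exact one_of (h i j).1

lemma nonunit (f : Fin 5 → Fin 5 ⊕ Fin 7) (v : Fin 5 → Q) (i : Fin 5)
    (h : v i = e ∧ ∀ j, dot v (fun l => Aq l (f j)) = o) : ¬ IsUnit (AA.submatrix id f) := by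
  rintro ⟨u, hu⟩
  have h1 : (fun l => (v l).ev) ᵥ* u.1 = 0 := by
    funext j
    have := ev_dot v (fun l => Aq l (f j))
    rw [h.2 j, o, Q.ev_o] at this
    simp only [hu, vecMul, dotProduct, submatrix_apply, id, AA_eq, mul_smul_comm, Pi.zero_apply]
    rw [← Finset.smul_sum, ← this, smul_zero]
  have h2 := congrArg (fun w => (w ᵥ* u.inv) i) h1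
  simp only [vecMul_vecMul, u.val_inv, vecMul_one, zero_vecMul, Pi.zero_apply, h.1, e,
    Q.ev_int] at h2
  simp at h2

lemma u0 : IsUnit (AA.submatrix id ![inr 2, inl 1, inl 2, inl 3, inl 4]) :=
  unit _ ![![e, o, o, o, o], ![⟨⟨-2, 0⟩, ⟨0, 0⟩, ⟨0, 0⟩, ⟨0, 0⟩⟩, e, o, o, o], ![⟨⟨-2, 0⟩, ⟨0, 0⟩, ⟨0, 0⟩, ⟨0, 0⟩⟩, o, e, o, o], ![⟨⟨-2, 0⟩, ⟨0, 0⟩, ⟨0, 0⟩, ⟨0, 0⟩⟩, o, o, e, o], ![⟨⟨-2, 0⟩, ⟨0, 0⟩, ⟨0, 0⟩, ⟨0, 0⟩⟩, o, o, o, e]] (by decide +kernel)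

lemma u1 : IsUnit (AA.submatrix id ![inr 3, inl 1, inl 2, inl 3, inl 4]) :=
  unit _ ![![e, o, o, o, o], ![⟨⟨-1, 0⟩, ⟨-1, 1⟩, ⟨0, 0⟩, ⟨0, 1⟩⟩, e, o, o, o], ![⟨⟨-1, 0⟩, ⟨0, 1⟩, ⟨1, -1⟩, ⟨0, 0⟩⟩, o, e, o, o], ![⟨⟨-1, 0⟩, ⟨-1, 1⟩, ⟨0, 0⟩, ⟨0, 1⟩⟩, o, o, e, o], ![⟨⟨-1, 0⟩, ⟨0, 1⟩, ⟨1, -1⟩, ⟨0, 0⟩⟩, o, o, o, e]] (by decide +kernel)

lemma u2 : IsUnit (AA.submatrix id ![inr 4, inl 1, inl 2, inl 3, inl 4]) :=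
  unit _ ![![e, o, o, o, o], ![⟨⟨-1, 0⟩, ⟨-1, 1⟩, ⟨0, 0⟩, ⟨0, 1⟩⟩, e, o, o, o], ![⟨⟨-1, 0⟩, ⟨0, 1⟩, ⟨1, -1⟩, ⟨0, 0⟩⟩, o, e, o, o], ![o, o, o, e, o], ![o, o, o, o, e]] (by decide +kernel)

lemma u3 : IsUnit (AA.submatrix id ![inr 5, inl 1, inl 2, inl 3, inl 4]) :=
  unit _ ![![e, o, o, o, o], ![⟨⟨-2, 0⟩, ⟨0, 0⟩, ⟨0, 0⟩, ⟨0, 0⟩⟩, e, o, o, o], ![⟨⟨-2, 0⟩, ⟨0, 0⟩, ⟨0, 0⟩, ⟨0, 0⟩⟩, o, e, o, o], ![⟨⟨-1, 0⟩, ⟨-1, 1⟩, ⟨0, 0⟩, ⟨0, 1⟩⟩, o, o, e, o], ![⟨⟨-1, 0⟩, ⟨0, 1⟩, ⟨1, -1⟩, ⟨0, 0⟩⟩, o, o, o, e]] (by decide +kernel)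

lemma u4 : IsUnit (AA.submatrix id ![inr 6, inl 1, inl 2, inl 3, inl 4]) :=
  unit _ ![![e, o, o, o, o], ![o, e, o, o, o], ![o, o, e, o, o], ![⟨⟨-2, 0⟩, ⟨0, 0⟩, ⟨0, 0⟩, ⟨0, 0⟩⟩, o, o, e, o], ![⟨⟨-2, 0⟩, ⟨0, 0⟩, ⟨0, 0⟩, ⟨0, 0⟩⟩, o, o, o, e]] (by decide +kernel)

lemma u5 : IsUnit (AA.submatrix id ![inl 0, inr 0, inl 2, inl 3, inl 4]) :=
  unit _ ![![e, o, o, o, o], ![o, e, o, o, o], ![o, ⟨⟨-1, 0⟩, ⟨1, 0⟩, ⟨-1, 0⟩, ⟨1, 0⟩⟩, e, o, o], ![o, o, o, e, o], ![o, o, o, o, e]] (by decide +kernel)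

lemma u6 : IsUnit (AA.submatrix id ![inl 0, inl 1, inr 0, inl 3, inl 4]) :=
  unit _ ![![e, o, o, o, o], ![o, e, ⟨⟨-1, 0⟩, ⟨-1, 0⟩, ⟨1, 0⟩, ⟨-1, 0⟩⟩, o, o], ![o, o, ⟨⟨1, 0⟩, ⟨1, 0⟩, ⟨-1, 0⟩, ⟨1, 0⟩⟩, o, o], ![o, o, o, e, o], ![o, o, o, o, e]] (by decide +kernel)

lemma u7 : IsUnit (AA.submatrix id ![inl 0, inl 1, inl 2, inl 3, inr 2]) :=
  unit _ ![![e, o, o, o, ⟨⟨-2, 0⟩, ⟨0, 0⟩, ⟨0, 0⟩, ⟨0, 0⟩⟩], ![o, e, o, o, ⟨⟨-2, 0⟩, ⟨0, 0⟩, ⟨0, 0⟩, ⟨0, 0⟩⟩], ![o, o, e, o, ⟨⟨-2, 0⟩, ⟨0, 0⟩, ⟨0, 0⟩, ⟨0, 0⟩⟩], ![o, o, o, e, ⟨⟨-2, 0⟩, ⟨0, 0⟩, ⟨0, 0⟩, ⟨0, 0⟩⟩], ![o, o, o, o, e]] (by decide +kernel)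

lemma u8 : IsUnit (AA.submatrix id ![inl 0, inl 1, inl 2, inr 2, inl 4]) :=
  unit _ ![![e, o, o, ⟨⟨-2, 0⟩, ⟨0, 0⟩, ⟨0, 0⟩, ⟨0, 0⟩⟩, o], ![o, e, o, ⟨⟨-2, 0⟩, ⟨0, 0⟩, ⟨0, 0⟩, ⟨0, 0⟩⟩, o], ![o, o, e, ⟨⟨-2, 0⟩, ⟨0, 0⟩, ⟨0, 0⟩, ⟨0, 0⟩⟩, o], ![o, o, o, e, o], ![o, o, o, ⟨⟨-2, 0⟩, ⟨0, 0⟩, ⟨0, 0⟩, ⟨0, 0⟩⟩, e]] (by decide +kernel)

lemma u9 : IsUnit (AA.submatrix id ![inl 0, inl 1, inl 2, inr 1, inr 2]) :=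
  unit _ ![![e, o, o, ⟨⟨-1, 0⟩, ⟨-1, 0⟩, ⟨1, 0⟩, ⟨-1, 0⟩⟩, ⟨⟨-1, 0⟩, ⟨1, 0⟩, ⟨-1, 0⟩, ⟨1, 0⟩⟩], ![o, e, o, ⟨⟨-1, 0⟩, ⟨-1, 0⟩, ⟨1, 0⟩, ⟨-1, 0⟩⟩, ⟨⟨-1, 0⟩, ⟨1, 0⟩, ⟨-1, 0⟩, ⟨1, 0⟩⟩], ![o, o, e, ⟨⟨-1, 0⟩, ⟨-1, 0⟩, ⟨1, 0⟩, ⟨-1, 0⟩⟩, ⟨⟨-1, 0⟩, ⟨1, 0⟩, ⟨-1, 0⟩, ⟨1, 0⟩⟩], ![o, o, o, ⟨⟨1, 0⟩, ⟨-1, 0⟩, ⟨1, 0⟩, ⟨-1, 0⟩⟩, ⟨⟨-1, 0⟩, ⟨1, 0⟩, ⟨-1, 0⟩, ⟨1, 0⟩⟩], ![o, o, o, ⟨⟨1, 0⟩, ⟨1, 0⟩, ⟨-1, 0⟩, ⟨1, 0⟩⟩, ⟨⟨1, 0⟩, ⟨-1, 0⟩, ⟨1, 0⟩, ⟨-1, 0⟩⟩]] (by decide +kernel)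

lemma u10 : IsUnit (AA.submatrix id ![inl 0, inr 2, inr 3, inl 3, inl 4]) :=
  unit _ ![![e, ⟨⟨-1, 0⟩, ⟨1, 0⟩, ⟨1, 0⟩, ⟨-1, 0⟩⟩, ⟨⟨-1, 0⟩, ⟨-1, 0⟩, ⟨-1, 0⟩, ⟨1, 0⟩⟩, o, o], ![o, ⟨⟨1, 0⟩, ⟨0, 0⟩, ⟨0, -1⟩, ⟨1, -1⟩⟩, ⟨⟨1, 0⟩, ⟨0, 0⟩, ⟨0, 1⟩, ⟨-1, 1⟩⟩, o, o], ![o, ⟨⟨0, 0⟩, ⟨-1, 0⟩, ⟨-1, 1⟩, ⟨0, 1⟩⟩, ⟨⟨0, 0⟩, ⟨1, 0⟩, ⟨1, -1⟩, ⟨0, -1⟩⟩, o, o], ![o, ⟨⟨-2, 0⟩, ⟨0, 0⟩, ⟨0, 0⟩, ⟨0, 0⟩⟩, o, e, o], ![o, o, ⟨⟨-2, 0⟩, ⟨0, 0⟩, ⟨0, 0⟩, ⟨0, 0⟩⟩, o, e]] (by decide +kernel)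

lemma n0 : ¬ IsUnit (AA.submatrix id ![inr 0, inl 1, inl 2, inl 3, inl 4]) :=
  nonunit _ ![e, o, o, o, o] 0 (by decide +kernel)

lemma n1 : ¬ IsUnit (AA.submatrix id ![inl 0, inl 1, inl 2, inr 0, inl 4]) :=
  nonunit _ ![o, o, o, e, o] 3 (by decide +kernel)

lemma n2 : ¬ IsUnit (AA.submatrix id ![inl 0, inl 1, inl 2, inl 3, inr 0]) :=
  nonunit _ ![o, o, o, o, e] 4 (by decide +kernel)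

lemma n3 : ¬ IsUnit (AA.submatrix id ![inr 1, inl 1, inl 2, inl 3, inl 4]) :=
  nonunit _ ![e, o, o, o, o] 0 (by decide +kernel)

lemma n4 : ¬ IsUnit (AA.submatrix id ![inl 0, inr 1, inl 2, inl 3, inl 4]) :=
  nonunit _ ![o, e, o, o, o] 1 (by decide +kernel)

lemma n5 : ¬ IsUnit (AA.submatrix id ![inl 0, inl 1, inr 1, inl 3, inl 4]) :=
  nonunit _ ![o, o, e, o, o] 2 (by decide +kernel)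

lemma n6 : ¬ IsUnit (AA.submatrix id ![inl 0, inl 1, inl 2, inr 4, inl 4]) :=
  nonunit _ ![o, o, o, e, o] 3 (by decide +kernel)

lemma n7 : ¬ IsUnit (AA.submatrix id ![inl 0, inl 1, inl 2, inl 3, inr 4]) :=
  nonunit _ ![o, o, o, o, e] 4 (by decide +kernel)

lemma n8 : ¬ IsUnit (AA.submatrix id ![inl 0, inr 6, inl 2, inl 3, inl 4]) :=
  nonunit _ ![o, e, o, o, o] 1 (by decide +kernel)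

lemma n9 : ¬ IsUnit (AA.submatrix id ![inl 0, inl 1, inr 6, inl 3, inl 4]) :=
  nonunit _ ![o, o, e, o, o] 2 (by decide +kernel)

lemma n10 : ¬ IsUnit (AA.submatrix id ![inr 2, inr 5, inl 2, inl 3, inl 4]) :=
  nonunit _ ![e, ⟨⟨-2, 0⟩, ⟨0, 0⟩, ⟨0, 0⟩, ⟨0, 0⟩⟩, o, o, o] 0 (by decide +kernel)

lemma n11 : ¬ IsUnit (AA.submatrix id ![inr 3, inr 4, inl 2, inl 3, inl 4]) :=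
  nonunit _ ![e, ⟨⟨-1, 0⟩, ⟨1, -1⟩, ⟨0, 0⟩, ⟨0, -1⟩⟩, o, o, o] 0 (by decide +kernel)

lemma n12 : ¬ IsUnit (AA.submatrix id ![inr 2, inl 1, inr 5, inl 3, inl 4]) :=
  nonunit _ ![e, o, ⟨⟨-2, 0⟩, ⟨0, 0⟩, ⟨0, 0⟩, ⟨0, 0⟩⟩, o, o] 0 (by decide +kernel)

lemma n13 : ¬ IsUnit (AA.submatrix id ![inr 3, inl 1, inr 4, inl 3, inl 4]) :=
  nonunit _ ![e, o, ⟨⟨-1, 0⟩, ⟨0, -1⟩, ⟨-1, 1⟩, ⟨0, 0⟩⟩, o, o] 0 (by decide +kernel)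

lemma n14 : ¬ IsUnit (AA.submatrix id ![inr 2, inl 1, inl 2, inr 6, inl 4]) :=
  nonunit _ ![e, o, o, ⟨⟨-2, 0⟩, ⟨0, 0⟩, ⟨0, 0⟩, ⟨0, 0⟩⟩, o] 0 (by decide +kernel)

lemma n15 : ¬ IsUnit (AA.submatrix id ![inr 3, inl 1, inl 2, inr 5, inl 4]) :=
  nonunit _ ![e, o, o, ⟨⟨-1, 0⟩, ⟨1, -1⟩, ⟨0, 0⟩, ⟨0, -1⟩⟩, o] 0 (by decide +kernel)

lemma n16 : ¬ IsUnit (AA.submatrix id ![inr 2, inl 1, inl 2, inl 3, inr 6]) :=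
  nonunit _ ![e, o, o, o, ⟨⟨-2, 0⟩, ⟨0, 0⟩, ⟨0, 0⟩, ⟨0, 0⟩⟩] 0 (by decide +kernel)

lemma n17 : ¬ IsUnit (AA.submatrix id ![inr 3, inl 1, inl 2, inl 3, inr 5]) :=
  nonunit _ ![e, o, o, o, ⟨⟨-1, 0⟩, ⟨0, -1⟩, ⟨-1, 1⟩, ⟨0, 0⟩⟩] 0 (by decide +kernel)

lemma n18 : ¬ IsUnit (AA.submatrix id ![inl 0, inl 1, inr 2, inl 3, inr 3]) :=
  nonunit _ ![o, o, e, o, ⟨⟨-2, 0⟩, ⟨0, 0⟩, ⟨0, 0⟩, ⟨0, 0⟩⟩] 2 (by decide +kernel)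

lemma n19 : ¬ IsUnit (AA.submatrix id ![inl 0, inr 2, inl 2, inr 3, inl 4]) :=
  nonunit _ ![o, e, o, ⟨⟨-2, 0⟩, ⟨0, 0⟩, ⟨0, 0⟩, ⟨0, 0⟩⟩, o] 1 (by decide +kernel)

lemma n20 : ¬ IsUnit (AA.submatrix id ![inl 0, inr 0, inr 1, inr 2, inr 3]) :=
  nonunit _ ![o, e, ⟨⟨-1, 0⟩, ⟨-1, 0⟩, ⟨1, 0⟩, ⟨-1, 0⟩⟩, ⟨⟨-2, 0⟩, ⟨0, 0⟩, ⟨0, 0⟩, ⟨0, 0⟩⟩, ⟨⟨1, 0⟩, ⟨1, 0⟩, ⟨-1, 0⟩, ⟨1, 0⟩⟩] 1 (by decide +kernel)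

lemma n21 : ¬ IsUnit (AA.submatrix id ![inr 4, inl 1, inr 5, inl 3, inr 6]) :=
  nonunit _ ![e, o, ⟨⟨-1, 0⟩, ⟨0, -1⟩, ⟨-1, 1⟩, ⟨0, 0⟩⟩, o, ⟨⟨-2, 0⟩, ⟨0, 0⟩, ⟨0, 0⟩, ⟨0, 0⟩⟩] 0 (by decide +kernel)

lemma n22 : ¬ IsUnit (AA.submatrix id ![inr 4, inr 5, inl 2, inr 6, inl 4]) :=
  nonunit _ ![e, ⟨⟨-1, 0⟩, ⟨1, -1⟩, ⟨0, 0⟩, ⟨0, -1⟩⟩, o, ⟨⟨-2, 0⟩, ⟨0, 0⟩, ⟨0, 0⟩, ⟨0, 0⟩⟩, o] 0 (by decide +kernel)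

lemma n23 : ¬ IsUnit (AA.submatrix id ![inr 0, inr 1, inr 4, inr 5, inr 6]) :=
  nonunit _ ![e, ⟨⟨-1, 1⟩, ⟨0, 0⟩, ⟨1, 0⟩, ⟨0, -1⟩⟩, ⟨⟨0, -1⟩, ⟨0, 0⟩, ⟨-1, 1⟩, ⟨1, 0⟩⟩, ⟨⟨-1, 0⟩, ⟨-1, 0⟩, ⟨1, 0⟩, ⟨-1, 0⟩⟩, ⟨⟨-1, 0⟩, ⟨1, 0⟩, ⟨-1, 0⟩, ⟨1, 0⟩⟩] 0 (by decide +kernel)

end Pool.Agent.H.MP_debf2a_co
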