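import Pool.Agent.H.MP_debf2a_co.B

set_option autoImplicit false

namespace Pool.Agent.H.MP_debf2a_co

open Matrix Quaternion Sum

lemma det4 {F : Type} [CommRing F] (M : Matrix (Fin 4) (Fin 4) F) : M.det =
    M 0 0 * (M 1 1 * (M 2 2 * (M 3 3) - M 2 3 * (M 3 2)) - M 1 2 * (M 2 1 * (M 3 3) - M 2 3 * (M 3
    1)) + M 1 3 * (M 2 1 * (M 3 2) - M 2 2 * (M 3 1))) - M 0 1 * (M 1 0 * (M 2 2 * (M 3 3) - M 2 3
    * (M 3 2)) - M 1 2 * (M 2 0 * (M 3 3) - M 2 3 * (M 3 0)) + M 1 3 * (M 2 0 * (M 3 2) - M 2 2 *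
    (M 3 0))) + M 0 2 * (M 1 0 * (M 2 1 * (M 3 3) - M 2 3 * (M 3 1)) - M 1 1 * (M 2 0 * (M 3 3) - M
    2 3 * (M 3 0)) + M 1 3 * (M 2 0 * (M 3 1) - M 2 1 * (M 3 0))) - M 0 3 * (M 1 0 * (M 2 1 * (M 3
    2) - M 2 2 * (M 3 1)) - M 1 1 * (M 2 0 * (M 3 2) - M 2 2 * (M 3 0)) + M 1 2 * (M 2 0 * (M 3 1)
    - M 2 1 * (M 3 0))) := by
  rw [Matrix.det_succ_row_zero, Fin.sum_univ_four]
  simp only [Matrix.det_fin_three, submatrix_apply]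
  simp [Fin.succAbove, Fin.lt_def]
  ring

lemma det5 {F : Type} [CommRing F] (M : Matrix (Fin 5) (Fin 5) F) : M.det =
    M 0 0 * (M 1 1 * (M 2 2 * (M 3 3 * (M 4 4) - M 3 4 * (M 4 3)) - M 2 3 * (M 3 2 * (M 4 4) - M 3
    4 * (M 4 2)) + M 2 4 * (M 3 2 * (M 4 3) - M 3 3 * (M 4 2))) - M 1 2 * (M 2 1 * (M 3 3 * (M 4 4)
    - M 3 4 * (M 4 3)) - M 2 3 * (M 3 1 * (M 4 4) - M 3 4 * (M 4 1)) + M 2 4 * (M 3 1 * (M 4 3) - M
    3 3 * (M 4 1))) + M 1 3 * (M 2 1 * (M 3 2 * (M 4 4) - M 3 4 * (M 4 2)) - M 2 2 * (M 3 1 * (M 4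
    4) - M 3 4 * (M 4 1)) + M 2 4 * (M 3 1 * (M 4 2) - M 3 2 * (M 4 1))) - M 1 4 * (M 2 1 * (M 3 2
    * (M 4 3) - M 3 3 * (M 4 2)) - M 2 2 * (M 3 1 * (M 4 3) - M 3 3 * (M 4 1)) + M 2 3 * (M 3 1 *
    (M 4 2) - M 3 2 * (M 4 1)))) - M 0 1 * (M 1 0 * (M 2 2 * (M 3 3 * (M 4 4) - M 3 4 * (M 4 3)) -
    M 2 3 * (M 3 2 * (M 4 4) - M 3 4 * (M 4 2)) + M 2 4 * (M 3 2 * (M 4 3) - M 3 3 * (M 4 2))) - M
    1 2 * (M 2 0 * (M 3 3 * (M 4 4) - M 3 4 * (M 4 3)) - M 2 3 * (M 3 0 * (M 4 4) - M 3 4 * (M 4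
    0)) + M 2 4 * (M 3 0 * (M 4 3) - M 3 3 * (M 4 0))) + M 1 3 * (M 2 0 * (M 3 2 * (M 4 4) - M 3 4
    * (M 4 2)) - M 2 2 * (M 3 0 * (M 4 4) - M 3 4 * (M 4 0)) + M 2 4 * (M 3 0 * (M 4 2) - M 3 2 *
    (M 4 0))) - M 1 4 * (M 2 0 * (M 3 2 * (M 4 3) - M 3 3 * (M 4 2)) - M 2 2 * (M 3 0 * (M 4 3) - M
    3 3 * (M 4 0)) + M 2 3 * (M 3 0 * (M 4 2) - M 3 2 * (M 4 0)))) + M 0 2 * (M 1 0 * (M 2 1 * (M 3
    3 * (M 4 4) - M 3 4 * (M 4 3)) - M 2 3 * (M 3 1 * (M 4 4) - M 3 4 * (M 4 1)) + M 2 4 * (M 3 1 *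
    (M 4 3) - M 3 3 * (M 4 1))) - M 1 1 * (M 2 0 * (M 3 3 * (M 4 4) - M 3 4 * (M 4 3)) - M 2 3 * (M
    3 0 * (M 4 4) - M 3 4 * (M 4 0)) + M 2 4 * (M 3 0 * (M 4 3) - M 3 3 * (M 4 0))) + M 1 3 * (M 2
    0 * (M 3 1 * (M 4 4) - M 3 4 * (M 4 1)) - M 2 1 * (M 3 0 * (M 4 4) - M 3 4 * (M 4 0)) + M 2 4 *
    (M 3 0 * (M 4 1) - M 3 1 * (M 4 0))) - M 1 4 * (M 2 0 * (M 3 1 * (M 4 3) - M 3 3 * (M 4 1)) - M
    2 1 * (M 3 0 * (M 4 3) - M 3 3 * (M 4 0)) + M 2 3 * (M 3 0 * (M 4 1) - M 3 1 * (M 4 0)))) - M 0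
    3 * (M 1 0 * (M 2 1 * (M 3 2 * (M 4 4) - M 3 4 * (M 4 2)) - M 2 2 * (M 3 1 * (M 4 4) - M 3 4 *
    (M 4 1)) + M 2 4 * (M 3 1 * (M 4 2) - M 3 2 * (M 4 1))) - M 1 1 * (M 2 0 * (M 3 2 * (M 4 4) - M
    3 4 * (M 4 2)) - M 2 2 * (M 3 0 * (M 4 4) - M 3 4 * (M 4 0)) + M 2 4 * (M 3 0 * (M 4 2) - M 3 2
    * (M 4 0))) + M 1 2 * (M 2 0 * (M 3 1 * (M 4 4) - M 3 4 * (M 4 1)) - M 2 1 * (M 3 0 * (M 4 4) -
    M 3 4 * (M 4 0)) + M 2 4 * (M 3 0 * (M 4 1) - M 3 1 * (M 4 0))) - M 1 4 * (M 2 0 * (M 3 1 * (M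
    4 2) - M 3 2 * (M 4 1)) - M 2 1 * (M 3 0 * (M 4 2) - M 3 2 * (M 4 0)) + M 2 2 * (M 3 0 * (M 4
    1) - M 3 1 * (M 4 0)))) + M 0 4 * (M 1 0 * (M 2 1 * (M 3 2 * (M 4 3) - M 3 3 * (M 4 2)) - M 2 2
    * (M 3 1 * (M 4 3) - M 3 3 * (M 4 1)) + M 2 3 * (M 3 1 * (M 4 2) - M 3 2 * (M 4 1))) - M 1 1 *
    (M 2 0 * (M 3 2 * (M 4 3) - M 3 3 * (M 4 2)) - M 2 2 * (M 3 0 * (M 4 3) - M 3 3 * (M 4 0)) + M
    2 3 * (M 3 0 * (M 4 2) - M 3 2 * (M 4 0))) + M 1 2 * (M 2 0 * (M 3 1 * (M 4 3) - M 3 3 * (M 4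
    1)) - M 2 1 * (M 3 0 * (M 4 3) - M 3 3 * (M 4 0)) + M 2 3 * (M 3 0 * (M 4 1) - M 3 1 * (M 4
    0))) - M 1 3 * (M 2 0 * (M 3 1 * (M 4 2) - M 3 2 * (M 4 1)) - M 2 1 * (M 3 0 * (M 4 2) - M 3 2
    * (M 4 0)) + M 2 2 * (M 3 0 * (M 4 1) - M 3 1 * (M 4 0)))) := by
  rw [Matrix.det_succ_row_zero, Fin.sum_univ_five]
  simp only [det4, submatrix_apply]
  simp [Fin.succAbove, Fin.lt_def]
  ring

lemma alg {F : Type} [Field F] {x2 x3 y2 y3 z2 z3 w2 w3 s1 s2 t1 t2 : F} (a1 : s1 ≠ 0) (a2 : s2 ≠ 0)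
    (a3 : w2 ≠ 0) (a4 : z2 ≠ 0) (a5 : t1 * w2 - t2 * z2 ≠ 0) (a6 : x2 * y3 - x3 * y2 ≠ 0)
    (b1 : y2 * w3 = y3 * w2) (b2 : x2 * z3 = x3 * z2)
    (b3 : (s1 * y2 - s2 * x2) * (t1 * w3 - t2 * z3) = (s1 * y3 - s2 * x3) * (t1 * w2 - t2 * z2))
    (c1 : y2 * w2 - y3 * w2 + y3 * w3 = 0) (c2 : x2 * z2 - x3 * z2 + x3 * z3 = 0)
    (c3 : (s1 * y2 - s2 * x2) * (t1 * w2 - t2 * z2) - (s1 * y3 - s2 * x3) * (t1 * w2 - t2 * z2) +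
      (s1 * y3 - s2 * x3) * (t1 * w3 - t2 * z3) = 0) : False := by
  have k : ∀ a b c d : F, c ≠ 0 → a * d = b * c → a * c - b * c + b * d = 0 →
      a ^ 2 - a * b + b ^ 2 = 0 := by
    intro a b c d h1 h2 h3
    apply mul_left_cancel₀ h1
    linear_combination a * h3 - b * h2
  have k1 := k _ _ _ _ a3 b1 c1
  have k2 := k _ _ _ _ a4 b2 c2
  have k3 := k _ _ _ _ a5 b3 c3
  have k4 : 2 * x2 * y2 - x2 * y3 - x3 * y2 + 2 * x3 * y3 = 0 := by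
    apply mul_left_cancel₀ (mul_ne_zero a1 a2)
    linear_combination s1 ^ 2 * k1 + s2 ^ 2 * k2 - k3
  apply pow_ne_zero 2 a6
  linear_combination y3 ^ 2 * k2 + x3 ^ 2 * k1 - x3 * y3 * k4

theorem norep {F : Type} [Field F] (E : Matrix (Fin 5) (Fin 5 ⊕ Fin 7) F)
    (hI : ∀ i j, E i (inl j) = if i = j then 1 else 0)
    (H : ∀ f : Fin 5 → Fin 5 ⊕ Fin 7, IsUnit (AA.submatrix id f) ↔ (E.submatrix id f).det ≠ 0) :
    False := by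
  have u0 := (H _).1 u0
  have u1 := (H _).1 u1
  have u2 := (H _).1 u2
  have u3 := (H _).1 u3
  have u4 := (H _).1 u4
  have u5 := (H _).1 u5
  have u6 := (H _).1 u6
  have u7 := (H _).1 u7
  have u8 := (H _).1 u8
  have u9 := (H _).1 u9
  have u10 := (H _).1 u10
  have n0 := not_not.1 (mt (H _).2 n0)
  have n1 := not_not.1 (mt (H _).2 n1)
  have n2 := not_not.1 (mt (H _).2 n2)
  have n3 := not_not.1 (mt (H _).2 n3)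
  have n4 := not_not.1 (mt (H _).2 n4)
  have n5 := not_not.1 (mt (H _).2 n5)
  have n6 := not_not.1 (mt (H _).2 n6)
  have n7 := not_not.1 (mt (H _).2 n7)
  have n8 := not_not.1 (mt (H _).2 n8)
  have n9 := not_not.1 (mt (H _).2 n9)
  have n10 := not_not.1 (mt (H _).2 n10)
  have n11 := not_not.1 (mt (H _).2 n11)
  have n12 := not_not.1 (mt (H _).2 n12)
  have n13 := not_not.1 (mt (H _).2 n13)
  have n14 := not_not.1 (mt (H _).2 n14)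
  have n15 := not_not.1 (mt (H _).2 n15)
  have n16 := not_not.1 (mt (H _).2 n16)
  have n17 := not_not.1 (mt (H _).2 n17)
  have n18 := not_not.1 (mt (H _).2 n18)
  have n19 := not_not.1 (mt (H _).2 n19)
  have n20 := not_not.1 (mt (H _).2 n20)
  have n21 := not_not.1 (mt (H _).2 n21)
  have n22 := not_not.1 (mt (H _).2 n22)
  have n23 := not_not.1 (mt (H _).2 n23)
  rw [det5] at u0 u1 u2 u3 u4 u5 u6 u7 u8 u9 u10 n0 n1 n2 n3 n4 n5 n6 n7 n8 n9 n10 n11 n12 n13 n14 n15 n16 n17 n18 n19 n20 n21 n22 n23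
  simp only [submatrix_apply, id, cons_val, hI, Fin.reduceEq, if_true, if_false, mul_zero, zero_mul,
    mul_one, one_mul, sub_zero, add_zero, zero_sub, zero_add, neg_zero, neg_neg, mul_neg, neg_eq_zero,
    sub_neg_eq_add, ne_eq] at u0 u1 u2 u3 u4 u5 u6 u7 u8 u9 u10 n0 n1 n2 n3 n4 n5 n6 n7 n8 n9 n10 n11 n12 n13 n14 n15 n16 n17 n18 n19 n20 n21 n22 n23
  clear H hI
  simp only [n0, n1, n2, n3, n4, n5, n6, n7, n8, n9, mul_zero, zero_mul,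
    sub_zero, add_zero, zero_sub, zero_add, neg_zero, neg_neg, mul_neg] at n20 n21 n22 n23
  have ex : ∀ {c : F} (x : F), c ≠ 0 → ∃ y, x = c * y := fun x h => ⟨_, (mul_div_cancel₀ x h).symm⟩
  obtain ⟨x2, e1⟩ := ex (E 1 (inr 2)) u0
  obtain ⟨y2, e2⟩ := ex (E 2 (inr 2)) u0
  obtain ⟨z2, e3⟩ := ex (E 3 (inr 2)) u0
  obtain ⟨w2, e4⟩ := ex (E 4 (inr 2)) u0
  obtain ⟨x3, e5⟩ := ex (E 1 (inr 3)) u1
  obtain ⟨y3, e6⟩ := ex (E 2 (inr 3)) u1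
  obtain ⟨z3, e7⟩ := ex (E 3 (inr 3)) u1
  obtain ⟨w3, e8⟩ := ex (E 4 (inr 3)) u1
  simp only [e1, e2, e3, e4, e5, e6, e7, e8] at u7 u8 u9 u10 n10 n11 n12 n13 n14 n15 n16 n17 n18 n19 n20
  have f1 : E 1 (inr 5) = E 0 (inr 5) * x2 := mul_left_cancel₀ u0 (by linear_combination n10)
  have f2 : E 1 (inr 4) = E 0 (inr 4) * x3 := mul_left_cancel₀ u1 (by linear_combination n11)
  have f3 : E 2 (inr 5) = E 0 (inr 5) * y2 := mul_left_cancel₀ u0 (by linear_combination n12)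
  have f4 : E 2 (inr 4) = E 0 (inr 4) * y3 := mul_left_cancel₀ u1 (by linear_combination n13)
  have f5 : E 3 (inr 6) = E 0 (inr 6) * z2 := mul_left_cancel₀ u0 (by linear_combination n14)
  have f6 : E 3 (inr 5) = E 0 (inr 5) * z3 := mul_left_cancel₀ u1 (by linear_combination n15)
  have f7 : E 4 (inr 6) = E 0 (inr 6) * w2 := mul_left_cancel₀ u0 (by linear_combination n16)
  have f8 : E 4 (inr 5) = E 0 (inr 5) * w3 := mul_left_cancel₀ u1 (by linear_combination n17)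
  simp only [f1, f2, f3, f4, f5, f6, f7, f8] at n21 n22 n23
  have g1 := mul_ne_zero u0 u1
  have g2 := mul_ne_zero (mul_ne_zero u2 u3) u4
  refine alg (x2 := x2) (x3 := x3) (y2 := y2) (y3 := y3) (z2 := z2) (z3 := z3) (w2 := w2) (w3 := w3)
    (t1 := E 3 (inr 1)) (t2 := E 4 (inr 1)) u5 u6 (right_ne_zero_of_mul u7)
    (right_ne_zero_of_mul u8) (fun h => u9 ?_) (fun h => u10 ?_) (mul_left_cancel₀ g1 ?_)
    (mul_left_cancel₀ g1 ?_) (mul_left_cancel₀ g1 ?_) (mul_left_cancel₀ g2 ?_)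
    (mul_left_cancel₀ g2 ?_) (mul_left_cancel₀ g2 ?_)
  · linear_combination E 0 (inr 2) * h
  · linear_combination E 0 (inr 2) * E 0 (inr 3) * h
  · linear_combination n18
  · linear_combination n19
  · linear_combination -n20
  · linear_combination n21
  · linear_combination n22
  · linear_combination -n23

theorem norep' (F : Type) [Field F] : ¬ ∃ E : Matrix (Fin 5) (Fin 5 ⊕ Fin 7) F,
    ∀ f : Fin 5 → Fin 5 ⊕ Fin 7, (IsUnit (AA.submatrix id f) ↔ IsUnit (E.submatrix id f)) := by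
  rintro ⟨E, H⟩
  have h1 : IsUnit (E.submatrix id inl) := by
    rw [← H]
    have : AA.submatrix id inl = 1 := by ext1 i j; simp [AA]
    rw [this]; exact isUnit_one
  obtain ⟨u, hu⟩ := h1
  have e : ∀ f : Fin 5 → Fin 5 ⊕ Fin 7, (u.inv * E).submatrix id f = u.inv * E.submatrix id f :=
    fun f => by ext i j; simp [Matrix.mul_apply]
  refine norep (u.inv * E) (fun i j => ?_) fun f => ?_
  · have := congrFun (congrFun (e inl) i) j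
    rw [← hu, u.inv_val, Matrix.one_apply] at this
    exact this
  · rw [H, e, ← isUnit_iff_ne_zero, ← isUnit_iff_isUnit_det]
    exact (Units.isUnit_units_mul u⁻¹ _).symm

theorem qu (k : ℕ) (g : Fin k → Fin 5) (h : Fin k → Fin 7) (hu : IsUnit (DD.submatrix g h)) :
    Sd (DD.submatrix g h) = 1 :=
  (sound 5 2 LL (by norm_num) ok k (fun a => g a) (fun b => h b)).resolve_left (Sd_ne hu)

end Pool.Agent.H.MP_debf2a_co
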